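import Pool.Agent.Helper4.HZ.Goals2

/-!
# Genera with a unique Hurwitz surface: packet KOB (the orders of `PSL₂(q)`, `q` a proper prime power)
-/

namespace Pool.Agent.Helper40.HZ

open Pool.Agent.Helper4.HZ

theorem Z_range_le {α : Type} (s : ℝ) (f : α → ℕ) :
    Z s (Set.range f) ≤ ∑' x, ENNReal.ofReal ((f x : ℝ) ^ (-s)) := by
  have h1 : Set.range f = ⋃ x, {f x} := by
    ext n
    simp [eq_comm]
  rw [h1]
  refine (ENNReal.tsum_iUnion_le_tsum (fun n : ℕ => ENNReal.ofReal ((n : ℝ) ^ (-s)))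
    (fun x => {f x})).trans ?_
  refine ENNReal.tsum_le_tsum fun x => le_of_eq ?_
  exact tsum_singleton (f x) (fun n : ℕ => ENNReal.ofReal ((n : ℝ) ^ (-s)))

/-- the order of `PSL₂(q)` -/
def oo (q : ℕ) : ℕ := q * (q ^ 2 - 1) / Nat.gcd 2 (q - 1)

theorem oo_ge (q : ℕ) (hq : 2 ≤ q) : q ^ 3 ≤ 4 * oo q := by
  unfold oo
  obtain ⟨g, hg⟩ : ∃ g, g = Nat.gcd 2 (q - 1) := ⟨_, rfl⟩
  rw [← hg]
  have hg1 : g ≤ 2 := by rw [hg]; exact Nat.gcd_le_left _ (by norm_num)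
  have hg2 : g ∣ q - 1 := by rw [hg]; exact Nat.gcd_dvd_right _ _
  have h1 : q ^ 2 - 1 = (q + 1) * (q - 1) := by
    have := Nat.sq_sub_sq q 1
    simpa using this
  have hg3 : g ∣ q * (q ^ 2 - 1) := by
    rw [h1]
    exact Dvd.dvd.mul_left (Dvd.dvd.mul_left hg2 _) _
  obtain ⟨m, hm⟩ : ∃ m, m = q * (q ^ 2 - 1) / g := ⟨_, rfl⟩
  have h2 : g * m = q * (q ^ 2 - 1) := by rw [hm]; exact Nat.mul_div_cancel' hg3
  rw [← hm]
  have h3 : g * m ≤ 2 * m := Nat.mul_le_mul_right _ hg1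
  have h4 : q ^ 2 ≤ 2 * (q ^ 2 - 1) := by
    have : 4 ≤ q ^ 2 := by nlinarith
    omega
  calc q ^ 3 = q * q ^ 2 := by ring
    _ ≤ q * (2 * (q ^ 2 - 1)) := Nat.mul_le_mul_left _ h4
    _ = 2 * (q * (q ^ 2 - 1)) := by ring
    _ = 2 * (g * m) := by rw [h2]
    _ ≤ 2 * (2 * m) := Nat.mul_le_mul_left _ h3
    _ = 4 * m := by ring

theorem bound (s : ℝ) (hs : 0 < s) (a b : ℕ) :
    ((oo ((a + 2) ^ (b + 2)) : ℕ) : ℝ) ^ (-s) ≤
      4 ^ s * (((a + 2 : ℕ) : ℝ) ^ (-(6 * s)) * ((2 : ℝ) ^ (-(3 * s))) ^ b) := by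
  have hn2 : (2 : ℝ) ≤ ((a + 2 : ℕ) : ℝ) := by push_cast; linarith [Nat.cast_nonneg (α := ℝ) a]
  have hn0 : (0 : ℝ) < ((a + 2 : ℕ) : ℝ) := by linarith
  have hq : 2 ≤ (a + 2) ^ (b + 2) := by
    calc 2 ≤ a + 2 := by omega
      _ = (a + 2) ^ 1 := (pow_one _).symm
      _ ≤ (a + 2) ^ (b + 2) := Nat.pow_le_pow_right (by omega) (by omega)
  have h1 := oo_ge _ hq
  have h2 : (((a + 2 : ℕ) : ℝ) ^ (3 * (b + 2))) / 4 ≤ ((oo ((a + 2) ^ (b + 2)) : ℕ) : ℝ) := by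
    rw [div_le_iff₀ (by norm_num)]
    have h3 : ((((a + 2) ^ (b + 2)) ^ 3 : ℕ) : ℝ) ≤ ((4 * oo ((a + 2) ^ (b + 2)) : ℕ) : ℝ) := by
      exact_mod_cast h1
    have h4 : ((((a + 2) ^ (b + 2)) ^ 3 : ℕ) : ℝ) = ((a + 2 : ℕ) : ℝ) ^ (3 * (b + 2)) := by
      push_cast
      rw [← pow_mul, mul_comm (b + 2) 3]
    rw [h4, Nat.cast_mul] at h3
    push_cast at h3 ⊢
    linarith
  have h5 : ((oo ((a + 2) ^ (b + 2)) : ℕ) : ℝ) ^ (-s) ≤
      ((((a + 2 : ℕ) : ℝ) ^ (3 * (b + 2))) / 4) ^ (-s) :=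
    Real.rpow_le_rpow_of_nonpos (by positivity) h2 (by linarith)
  refine h5.trans ?_
  rw [Real.div_rpow (by positivity) (by norm_num), Real.rpow_neg (by norm_num : (0 : ℝ) ≤ 4),
    div_inv_eq_mul, mul_comm]
  refine mul_le_mul_of_nonneg_left ?_ (by positivity)
  have h6 : (((a + 2 : ℕ) : ℝ) ^ (3 * (b + 2))) ^ (-s) =
      ((a + 2 : ℕ) : ℝ) ^ (-(6 * s)) * ((a + 2 : ℕ) : ℝ) ^ (-(3 * s) * b) := by
    rw [← Real.rpow_natCast, ← Real.rpow_mul hn0.le, ← Real.rpow_add hn0]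
    congr 1
    push_cast
    ring
  rw [h6]
  refine mul_le_mul_of_nonneg_left ?_ (by positivity)
  rw [← Real.rpow_natCast, ← Real.rpow_mul (by norm_num : (0 : ℝ) ≤ 2)]
  have hb : -(3 * s) * (b : ℝ) ≤ 0 := by
    have : 0 ≤ 3 * s * (b : ℝ) := by positivity
    linarith
  exact Real.rpow_le_rpow_of_nonpos (by norm_num) hn2 hb

theorem KOB_holds : S_KOB := by
  intro s hs
  have hs0 : 0 < s := by linarith
  have hsub : a1Orders ⊆ Set.range (fun x : ℕ × ℕ => oo ((x.1 + 2) ^ (x.2 + 2))) := by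
    rintro m ⟨p, k, hp, hk, rfl⟩
    refine ⟨(p - 2, k - 2), ?_⟩
    show oo ((p - 2 + 2) ^ (k - 2 + 2)) = _
    rw [Nat.sub_add_cancel hp.two_le, Nat.sub_add_cancel hk]
    rfl
  refine lt_of_le_of_lt (ENNReal.tsum_mono_subtype
    (fun n : ℕ => ENNReal.ofReal ((n : ℝ) ^ (-s))) hsub) ?_
  refine lt_of_le_of_lt (Z_range_le s _) ?_
  refine lt_of_le_of_lt (ENNReal.tsum_le_tsum fun x =>
    ENNReal.ofReal_le_ofReal (bound s hs0 x.1 x.2)) ?_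
  apply Summable.tsum_ofReal_lt_top
  apply Summable.mul_left
  have h1 : Summable (fun a : ℕ => ((a + 2 : ℕ) : ℝ) ^ (-(6 * s))) := by
    have := (Real.summable_nat_rpow (p := -(6 * s))).2 (by linarith)
    exact (summable_nat_add_iff 2).2 this
  have h2 : Summable (fun b : ℕ => ((2 : ℝ) ^ (-(3 * s))) ^ b) := by
    apply summable_geometric_of_lt_one (by positivity)
    exact Real.rpow_lt_one_of_one_lt_of_neg (by norm_num) (by linarith)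
  exact h1.mul_of_nonneg h2 (fun a => by positivity) (fun b => by positivity)

end Pool.Agent.Helper40.HZ
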