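import Pool.Agent.Helper4.HZ.Goals

/-!
# Genera with a unique Hurwitz surface: packet ZGN (the monoid generated by a set)
-/

namespace Pool.Agent.Helper40.HZ

open Pool.Agent.Helper4.HZ Filter Topology

theorem Z_mono {s : ℝ} {A B : Set ℕ} (h : A ⊆ B) : Z s A ≤ Z s B :=
  ENNReal.tsum_mono_subtype (fun n : ℕ => ENNReal.ofReal ((n : ℝ) ^ (-s))) h

theorem Z_singleton (s : ℝ) (a : ℕ) : Z s {a} = ENNReal.ofReal ((a : ℝ) ^ (-s)) := by
  unfold Z
  exact tsum_singleton a (fun n : ℕ => ENNReal.ofReal ((n : ℝ) ^ (-s)))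

/-- the products of `k` elements of `A` -/
def Pw (A : Set ℕ) : ℕ → Set ℕ
  | 0 => {1}
  | k + 1 => {n | ∃ a ∈ A, ∃ b ∈ Pw A k, n = a * b}

theorem Z_Pw (h : S_ZPR) (s : ℝ) (A : Set ℕ) (k : ℕ) : Z s (Pw A k) ≤ Z s A ^ k := by
  induction k with
  | zero =>
    rw [pow_zero]
    show Z s {1} ≤ 1
    rw [Z_singleton]
    simp
  | succ k ih =>
    rw [pow_succ']
    exact (h s A (Pw A k)).trans (mul_le_mul_right ih _)

theorem closure_subset_Pw (A : Set ℕ) : (Submonoid.closure A : Set ℕ) ⊆ ⋃ k, Pw A k := by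
  intro n hn
  have hn' : n ∈ Submonoid.closure A := hn
  induction hn' using Submonoid.closure_induction_left with
  | one => exact Set.mem_iUnion.2 ⟨0, rfl⟩
  | mul_left x hx y hy ih =>
    obtain ⟨k, hk⟩ := Set.mem_iUnion.1 (ih hy)
    exact Set.mem_iUnion.2 ⟨k + 1, x, hx, y, hk, rfl⟩

theorem Z_closure_small (h : S_ZPR) (s : ℝ) (A : Set ℕ) (hA : Z s A < 1) :
    Z s (Submonoid.closure A : Set ℕ) < ⊤ := by
  refine lt_of_le_of_lt (Z_mono (closure_subset_Pw A)) ?_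
  refine lt_of_le_of_lt (ENNReal.tsum_iUnion_le_tsum
    (fun n : ℕ => ENNReal.ofReal ((n : ℝ) ^ (-s))) (Pw A)) ?_
  refine lt_of_le_of_lt (ENNReal.tsum_le_tsum fun k => Z_Pw h s A k) ?_
  rw [ENNReal.tsum_geometric]
  rw [ENNReal.inv_lt_top]
  exact tsub_pos_of_lt hA

theorem Z_closure_union (h : S_ZPR) (s : ℝ) (A B : Set ℕ) :
    Z s (Submonoid.closure (A ∪ B) : Set ℕ) ≤
      Z s (Submonoid.closure A : Set ℕ) * Z s (Submonoid.closure B : Set ℕ) := by
  refine le_trans (Z_mono ?_) (h s _ _)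
  intro n hn
  have hn' : n ∈ Submonoid.closure (A ∪ B) := hn
  rw [Submonoid.closure_union, Submonoid.mem_sup] at hn'
  obtain ⟨x, hx, y, hy, rfl⟩ := hn'
  exact ⟨x, hx, y, hy, rfl⟩

theorem Z_closure_finset (h : S_ZPR) (s : ℝ) (hs : 0 < s) (A : Set ℕ)
    (hA : Z s (Submonoid.closure A : Set ℕ) < ⊤) (F : Finset ℕ) (hF : ∀ a ∈ F, 2 ≤ a) :
    Z s (Submonoid.closure (A ∪ F) : Set ℕ) < ⊤ := by
  classical
  induction F using Finset.induction_on with
  | empty => simpa using hA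
  | insert a F ha ih =>
    have h1 := ih fun b hb => hF b (Finset.mem_insert_of_mem hb)
    have h2 : A ∪ ((insert a F : Finset ℕ) : Set ℕ) = (A ∪ F) ∪ {a} := by
      ext x
      simp only [Finset.coe_insert, Set.mem_union, Set.mem_insert_iff, Finset.mem_coe,
        Set.mem_singleton_iff]
      tauto
    rw [h2]
    refine lt_of_le_of_lt (Z_closure_union h s _ _) (ENNReal.mul_lt_top h1 ?_)
    apply Z_closure_small h
    rw [Z_singleton, ENNReal.ofReal_lt_one]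
    have ha2 : (1 : ℝ) < a := by
      have : 2 ≤ a := hF a (Finset.mem_insert_self a F)
      exact_mod_cast this
    exact Real.rpow_lt_one_of_one_lt_of_neg ha2 (by linarith)

theorem exists_finset (s : ℝ) (A : Set ℕ) (hA : Z s A < ⊤) :
    ∃ F : Finset ℕ, (∀ a ∈ F, a ∈ A) ∧ Z s (A \ F) < 1 := by
  classical
  have h0 : ∑' a : A, ENNReal.ofReal (((a : ℕ) : ℝ) ^ (-s)) ≠ ⊤ := hA.ne
  have h1 := (ENNReal.tendsto_tsum_compl_atTop_zero h0).eventually (gt_mem_nhds one_pos)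
  obtain ⟨F0, hF0⟩ := h1.exists
  refine ⟨F0.image Subtype.val, ?_, ?_⟩
  · intro a ha
    obtain ⟨b, -, rfl⟩ := Finset.mem_image.1 ha
    exact b.2
  · refine lt_of_le_of_lt ?_ hF0
    unfold Z
    let g : ↥(A \ ((F0.image Subtype.val : Finset ℕ) : Set ℕ)) → {x : A // x ∉ F0} := fun n =>
      ⟨⟨n.1, n.2.1⟩, fun hn => n.2.2 (Finset.mem_coe.2 (Finset.mem_image.2 ⟨_, hn, rfl⟩))⟩
    have hg : Function.Injective g := by
      intro x y hxy
      have h2 := congrArg (fun z : {x : A // x ∉ F0} => ((z.1 : A) : ℕ)) hxy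
      exact Subtype.ext h2
    exact ENNReal.tsum_comp_le_tsum_of_injective hg
      (fun b : {x : A // x ∉ F0} => ENNReal.ofReal ((((b : A) : ℕ) : ℝ) ^ (-s)))

theorem ZGN_holds (h : S_ZPR) : S_ZGN := by
  intro s A hs hA2 hA
  obtain ⟨F, hF, hF1⟩ := exists_finset s A hA
  have h1 := Z_closure_finset h s hs (A \ F) (Z_closure_small h s _ hF1) F
    fun a ha => hA2 a (hF a ha)
  refine lt_of_le_of_lt (Z_mono ?_) h1
  apply Submonoid.closure_mono
  intro x hx
  by_cases hxF : x ∈ F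
  · exact Or.inr hxF
  · exact Or.inl ⟨hx, hxF⟩

end Pool.Agent.Helper40.HZ
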